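import Pool.Agent.H424.OT.Third

/-!
# An arbitrary set and an interval below the exponent one third

Let `A` be an ARBITRARY set and let `B` be an interval (an arithmetic progression of length `N`),
or any set nearly invariant under one.  The classical conditions for a power saving are
`|A| N² ≥ p^(1+ε)` or `|A|² N ≥ p^(1+ε)`; for `|A| = N` both say `N ≥ p^(1/3+ε)`.  Here: for
`N ≥ p^(1/4+ε)` the condition `|A|² N ≥ p^(1-c)` is enough, where `c = c(ε) > 0`.  In particular the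
bound holds, with arbitrary weights, for all sets `A` and all intervals `B` with
`|A|, |B| ≥ p^(1/3-c/3)`.

Outline.  The line is cut into blocks of length `N`.  The part of `A` in the blocks with few
elements of `A` has a small local additive energy and is treated by amplification and a count of
pairs of shifted ratios (`Pool.Agent.H424.LE`); the part of `A` in one of the other blocks is a
subset of relative density at least `p^(-τ/3)` of an interval of length `N ≥ p^(1/4+ε)`, for which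
the library has a power saving `p^(-τ)` with all weights (`Pool.Agent.N397.PQ.main`).
-/

set_option autoImplicit false

namespace Pool.Agent.Results.MP_f6e9a2_nt.BelowOneThird

open scoped Pointwise

/-- the progression `0, v, 2 v, ..., (N - 1) v` -/
def prog {p : ℕ} (v : ZMod p) (N : ℕ) : Finset (ZMod p) :=
  (Finset.range N).image fun j : ℕ => (j : ZMod p) * v

theorem result :
    ∀ ε : ℝ, 0 < ε → ∃ c : ℝ, 0 < c ∧ ∃ δ : ℝ, 0 < δ ∧ ∃ p₀ : ℕ, ∀ p : ℕ, p.Prime → p₀ ≤ p →
      ∀ χ : DirichletCharacter ℂ p, χ ≠ 1 →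
      ∀ (N : ℕ) (v : ZMod p) (A Y : Finset (ZMod p)), v ≠ 0 → N ≤ p →
        (p : ℝ) ^ (1 / 4 + ε) ≤ N → (p : ℝ) ^ ε ≤ A.card →
        (p : ℝ) ^ (1 - c) ≤ (A.card : ℝ) ^ 2 * N →
        ((Y + prog v N).card : ℝ) ≤ (p : ℝ) ^ δ * Y.card →
        ∀ α β : ZMod p → ℂ, (∀ a, ‖α a‖ ≤ 1) →
          ∑ y ∈ Y, ‖∑ a ∈ A, α a * χ (a + y)‖ ≤ (p : ℝ) ^ (-δ) * (A.card * Y.card) ∧
          ‖∑ a ∈ A, ∑ y ∈ Y, α a * β y * χ (a + y)‖
            ≤ (p : ℝ) ^ (-δ) * (A.card * Real.sqrt (Y.card * ∑ y ∈ Y, ‖β y‖ ^ 2)) := by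
  intro ε hε
  obtain ⟨c, hc, δ, hδ, P, hP⟩ := Pool.Agent.H424.OT.ap_third ε hε
  refine ⟨c, hc, δ, hδ, P, fun p hp hPp χ hχ N v A Y hv hNp hN hA hAN hY α β hα => ?_⟩
  have : Fact p.Prime := ⟨hp⟩
  have hp1 : (1 : ℝ) ≤ p := by exact_mod_cast hp.one_lt.le
  have h1 := hP p hPp χ hχ N hNp hN v hv A hA hAN Y hY α hα
  refine ⟨h1.trans (mul_le_mul_of_nonneg_right ?_ (by positivity)),
    Pool.Agent.W27.TQ.l2_of_l1 χ A Y α β hα δ h1⟩
  exact Real.rpow_le_rpow_of_exponent_le hp1 (by linarith)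

end Pool.Agent.Results.MP_f6e9a2_nt.BelowOneThird
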