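import Pool.Agent.H424.LE.Main

/-!
# An arbitrary set and an interval: a criterion in terms of the local additive energy

Let `I = {0, v, ..., (N-1) v}` be a progression with `N ≥ p^ε` terms, let `Y` be `I` or any set
nearly invariant under the addition of `I`, and let `A` be an ARBITRARY set.  The conjectured bound,
with arbitrary weights, holds if the local additive energy
`Q = #{(a, b, c, d) ∈ A⁴ : a - b = c - d ∈ I - I}` satisfies `p^(1+ε) Q ≤ |A|⁴ N²`.

As `Q ≤ |A|² min(|A|, N)`, this contains the known range `|A| N max(|A|, N) ≥ p^(1+ε)` for all `A`.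
If every translate of `I` contains at most `p^(ε')` elements of `A` then `Q ≤ |A|² p^(2ε')` and the
condition is `|A| N ≥ p^(1/2+ε'')`: for instance `|A| = N ≥ p^(1/4+ε'')`.

Outline.  Amplification of the sum over `I` by products `y l`; the pairs `((a+x)/y, (a'+x)/y)` for
which the correlation of `χ` along a short interval is large are counted with Fourier analysis
(large sieve for the frequencies `j y`, no wrapping around); the diagonal contribution is the
smooth local energy of the sets `A ∩ (A - y d)`, `d` modulo `p`, whose sum over `d` is `Q`.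
-/

set_option autoImplicit false

namespace Pool.Agent.Results.MP_f6e9a2_nt.LocalEnergy

open scoped Pointwise

/-- the progression `0, v, 2 v, ..., (N - 1) v` -/
def prog {p : ℕ} (v : ZMod p) (N : ℕ) : Finset (ZMod p) :=
  (Finset.range N).image fun j : ℕ => (j : ZMod p) * v

/-- the number of the quadruples `(a, b, c, d)` of elements of `A` such that `a - b = c - d` and
this difference is the difference of two elements of `prog v N` -/
def localEnergy {p : ℕ} (v : ZMod p) (N : ℕ) (A : Finset (ZMod p)) : ℕ :=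
  (((A ×ˢ A) ×ˢ (A ×ˢ A)).filter fun t =>
    t.1.1 - t.1.2 = t.2.1 - t.2.2 ∧ t.1.1 - t.1.2 ∈ prog v N - prog v N).card

theorem result :
    ∀ ε : ℝ, 0 < ε → ∃ δ : ℝ, 0 < δ ∧ ∃ p₀ : ℕ, ∀ p : ℕ, p.Prime → p₀ ≤ p →
      ∀ χ : DirichletCharacter ℂ p, χ ≠ 1 →
      ∀ (N : ℕ) (v : ZMod p) (A Y : Finset (ZMod p)), v ≠ 0 → N ≤ p → (p : ℝ) ^ ε ≤ N →
        (p : ℝ) ^ ε ≤ A.card →
        (p : ℝ) ^ (1 + ε) * localEnergy v N A ≤ (A.card : ℝ) ^ 4 * (N : ℝ) ^ 2 →
        ((Y + prog v N).card : ℝ) ≤ (p : ℝ) ^ δ * Y.card →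
        ∀ α β : ZMod p → ℂ, (∀ a, ‖α a‖ ≤ 1) →
          ∑ y ∈ Y, ‖∑ a ∈ A, α a * χ (a + y)‖ ≤ (p : ℝ) ^ (-δ) * (A.card * Y.card) ∧
          ‖∑ a ∈ A, ∑ y ∈ Y, α a * β y * χ (a + y)‖
            ≤ (p : ℝ) ^ (-δ) * (A.card * Real.sqrt (Y.card * ∑ y ∈ Y, ‖β y‖ ^ 2)) := by
  intro ε hε
  obtain ⟨δ, hδ, P, hP⟩ := Pool.Agent.H424.LE.ap_mean ε hε
  refine ⟨δ, hδ, P, fun p hp hPp χ hχ N v A Y hv hNp hN hA hQ hY α β hα => ?_⟩
  have : Fact p.Prime := ⟨hp⟩
  have hp1 : (1 : ℝ) ≤ p := by exact_mod_cast hp.one_lt.le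
  have h1 := hP p hPp χ hχ N hNp hN v hv A hA hQ Y hY α hα
  refine ⟨h1.trans (mul_le_mul_of_nonneg_right ?_ (by positivity)),
    Pool.Agent.W27.TQ.l2_of_l1 χ A Y α β hα δ h1⟩
  exact Real.rpow_le_rpow_of_exponent_le hp1 (by linarith)

end Pool.Agent.Results.MP_f6e9a2_nt.LocalEnergy
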