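import Pool.Agent.H424.QP.Cover

/-!
# Quadratic progressions against arbitrary sets

Power saving for the double sums `∑ χ(a + b)` when `B` is an ARBITRARY set with at least `p^ε`
elements and `A` is made of progressions `α n² + β n + γ` with at least `N` terms,
`|B| N² ≥ p^(1+ε)`.  For one progression the sizes `|A| = N`, `|B|` may satisfy `|A| |B| < p`:
for example `|A|, |B| ≥ p^(1/3+ε)`, or `|B| ≥ p^ε` and `|A| ≥ p^(1/2-ε/3)`.

Outline.  Completing the square, the sum over a progression becomes `∑_{n < N} χ((n+x)² - D)`,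
and distinct elements of `B` give distinct `D`.  Replacing `n` by `n + u l` one has to bound
`∑_{l < L} χ((X + l)² - Y)` at the points `X = (n + x) / u`, `Y = D / u²`.  The moments of this sum
over all `(X, Y)` have square root cancellation in both variables: for `Y = z²` the sum splits into
two sums over the prime field, and for `Y = g z²`, `g` a nonsquare, it is a complete sum of the
character `χ ∘ norm` of the field with `p²` elements, to which Weil's bound applies.
-/

set_option autoImplicit false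

namespace Pool.Agent.Results.MP_f6e9a2_nt.QuadraticProgressions

open Finset

/-- `A` is evenly covered by quadratic progressions with at least `N` terms: there are finitely
many progressions `α i * n ^ 2 + β i * n + γ i`, `0 ≤ n < M i`, with `α i ≠ 0` and `M i ≥ N`, and
`m ≥ 1`, such that every element of `A` is the value of exactly `m` pairs `(i, n)` and no other
residue is a value. -/
def QuadCovered {p : ℕ} (N : ℕ) (A : Finset (ZMod p)) : Prop :=
  ∃ (m : ℕ) (ι : Type) (s : Finset ι) (α β γ : ι → ZMod p) (M : ι → ℕ), 0 < m ∧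
    (∀ i ∈ s, α i ≠ 0 ∧ N ≤ M i) ∧
    ∀ a : ZMod p, ∑ i ∈ s, ((range (M i)).filter fun n : ℕ =>
      α i * (n : ZMod p) ^ 2 + β i * n + γ i = a).card = if a ∈ A then m else 0

theorem result :
    ∀ ε : ℝ, 0 < ε → ∃ δ : ℝ, 0 < δ ∧ ∃ p₀ : ℕ, ∀ p : ℕ, p.Prime → p₀ ≤ p →
      ∀ χ : DirichletCharacter ℂ p, χ ≠ 1 → ∀ (N : ℕ) (A B : Finset (ZMod p)),
        QuadCovered N A →
        (p : ℝ) ^ ε ≤ B.card → (p : ℝ) ^ (1 + ε) ≤ B.card * (N : ℝ) ^ 2 →
          ∑ b ∈ B, ‖∑ a ∈ A, χ (a + b)‖ ≤ (p : ℝ) ^ (-δ) * (A.card * B.card) := by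
  intro ε hε
  obtain ⟨η, hη, P, hP⟩ := Pool.Agent.H424.QP.covered_set ε hε
  refine ⟨η, hη, P, fun p hp hPp χ hχ N A B hA hB hBN => ?_⟩
  have : Fact p.Prime := ⟨hp⟩
  exact hP p hPp χ hχ N A B hA hB hBN

end Pool.Agent.Results.MP_f6e9a2_nt.QuadraticProgressions
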