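import Pool.Agent.H424.AF.Main

/-!
# Two sets with different affine structure, one of them tiny, the other one below the square root

`A` has at least `p^ε` elements and is nearly invariant under every element of a set `T` of `p^ε`
dilations `a ↦ t a` (or translations `a ↦ t + a`).  `B` has at least `p^(1/2-c)` elements,
`c = c(ε) > 0`, and grows at most by the factor `p^c` under an arbitrary set `S` of affine maps
`x ↦ s x + m` which is not of the same type: no value `m` at `0` (no linear part `s`) is taken by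
more than `p^(-ε) |S|` of the maps.  Then the power saving of the conjecture holds for `A` and `B`,
although `|A||B|` may be as small as `p^(1/2+ε-c)`.

Examples.  `A` nearly invariant under dilations about `0`, `B` nearly invariant under dilations about
any other point `v` (`S = {x ↦ v + s (x - v)}`), or under translations: for instance the sums of
`χ (v + g^i + h^j)`, `v ≠ 0`, over `i ≤ p^ε`, `j ≤ p^(1/2-c)`.  `A` nearly invariant under
translations, and `B` nearly invariant under dilations about any point.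

Outline.  If the bound fails then, by the near invariance of `A` and Weil's bound for high moments,
there is a set `Z` with at most `p^(1/2+o(1))` elements which contains `b / t` (or `b + t`) for many
`(b, t) ∈ B × T`, so it contains `σ⁻¹(x) / t` for many `σ ∈ S`, `t ∈ T`, `x ∈ S(B)`.  If many maps in
`S` have the same linear part this contradicts the flattening theorem for affine maps.  Otherwise one
compares two maps `σ`, `σ'`: the point `z' = σ'⁻¹(x) / t` is the image of `z = σ⁻¹(x) / t` under an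
affine map whose linear part depends only on `σ`, `σ'` and whose constant term runs through `|T|`
values as `t` varies; so `Z` itself would be nearly invariant under many affine maps with many
translations for each linear part, which is impossible.
-/

set_option autoImplicit false

namespace Pool.Agent.Results.MP_f6e9a2_nt.StructuredByAffineMaps

/-- the images of the elements of `B` under the affine maps `x ↦ σ.1 * x + σ.2`, `σ ∈ S` -/
def images {p : ℕ} (S : Finset (ZMod p × ZMod p)) (B : Finset (ZMod p)) : Finset (ZMod p) :=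
  (S ×ˢ B).image fun q => q.1.1 * q.2 + q.1.2

theorem result (ε : ℝ) (hε : 0 < ε) : ∃ c : ℝ, 0 < c ∧ ∃ δ : ℝ, 0 < δ ∧ ∃ p₀ : ℕ,
    ∀ p : ℕ, p.Prime → p₀ ≤ p → ∀ χ : DirichletCharacter ℂ p, χ ≠ 1 →
    ∀ (A B T : Finset (ZMod p)) (S : Finset (ZMod p × ZMod p)),
      (p : ℝ) ^ ε ≤ A.card → (p : ℝ) ^ (1 / 2 - c) ≤ B.card → (p : ℝ) ^ ε ≤ T.card →
      S.Nonempty → (∀ σ ∈ S, σ.1 ≠ 0) → ((images S B).card : ℝ) ≤ (p : ℝ) ^ c * B.card →
      (((∀ t ∈ T, t ≠ 0 ∧ ((A \ A.image fun a => t * a).card : ℝ) ≤ (p : ℝ) ^ (-ε) * A.card) ∧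
          ∀ m : ZMod p, ((S.filter fun σ => σ.2 = m).card : ℝ) ≤ (p : ℝ) ^ (-ε) * S.card) ∨
        ((∀ t ∈ T, ((A \ A.image fun a => t + a).card : ℝ) ≤ (p : ℝ) ^ (-ε) * A.card) ∧
          ∀ s : ZMod p, ((S.filter fun σ => σ.1 = s).card : ℝ) ≤ (p : ℝ) ^ (-ε) * S.card)) →
      ∑ b ∈ B, ‖∑ a ∈ A, χ (a + b)‖ ≤ (p : ℝ) ^ (-δ) * (A.card * B.card) := by
  obtain ⟨c₁, hc₁, δ₁, hδ₁, p₁, h₁⟩ := Pool.Agent.H424.AF.dilations ε hε
  obtain ⟨c₂, hc₂, δ₂, hδ₂, p₂, h₂⟩ := Pool.Agent.H424.AF.translations ε hε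
  refine ⟨min c₁ c₂, lt_min hc₁ hc₂, min δ₁ δ₂, lt_min hδ₁ hδ₂, p₁ + p₂, ?_⟩
  intro p hpp hp χ hχ A B T S hA hB hT hSne hS0 hSB hcase
  have hF : Fact p.Prime := ⟨hpp⟩
  have hp1 : (1 : ℝ) ≤ p := by exact_mod_cast hpp.one_lt.le
  have hmono : ∀ x y : ℝ, x ≤ y → (p : ℝ) ^ x ≤ (p : ℝ) ^ y := fun x y h =>
    Real.rpow_le_rpow_of_exponent_le hp1 h
  have m1 := min_le_left c₁ c₂
  have m2 := min_le_right c₁ c₂
  have n1 := min_le_left δ₁ δ₂
  have n2 := min_le_right δ₁ δ₂
  have e : ∑ b ∈ B, ‖∑ a ∈ A, χ (a + b)‖ = ∑ b ∈ B, ‖∑ a ∈ A, χ (b + a)‖ := by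
    simp only [add_comm]
  rw [e]
  rcases hcase with ⟨hAT, hSm⟩ | ⟨hAT, hSl⟩
  · have h := h₁ p (by omega) χ hχ B A T S ((hmono _ _ (by linarith)).trans hB) hA hT hSne hS0
      (fun x => by convert hSm x) (hSB.trans (mul_le_mul_of_nonneg_right (hmono _ _ m1)
        (Nat.cast_nonneg _))) (fun t ht => ⟨(hAT t ht).1, by convert (hAT t ht).2⟩)
    refine h.trans ?_
    rw [mul_comm (A.card : ℝ)]
    exact mul_le_mul_of_nonneg_right (hmono _ _ (by linarith)) (by positivity)
  · have h := h₂ p (by omega) χ hχ B A T S ((hmono _ _ (by linarith)).trans hB) hA hT hSne hS0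
      (fun x => by convert hSl x) (hSB.trans (mul_le_mul_of_nonneg_right (hmono _ _ m2)
        (Nat.cast_nonneg _))) (fun t ht => by convert hAT t ht)
    refine h.trans ?_
    rw [mul_comm (A.card : ℝ)]
    exact mul_le_mul_of_nonneg_right (hmono _ _ (by linarith)) (by positivity)

end Pool.Agent.Results.MP_f6e9a2_nt.StructuredByAffineMaps
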